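import Pool.Agent.H70.CG.End

/-!
# The diffusivity of the walk on the infinite percolation cluster in high dimensions

Definitions (file `Pool/Agent/H5/DF/Defs.lean`): `perc d p` is Bernoulli bond percolation on `ℤ ^ d`,
`theta d p` the percolation probability, `HasDiffusivity d p D` says that for almost every configuration
with `0` in an infinite cluster `X_n / √n` (simple random walk on the cluster, started at `0`) converges in
law to the centred Gaussian vector with covariance matrix `D I_d`.

The theorem has no hypothesis: in all sufficiently large dimensions `D(p)` is of the order `(p - p_c) ^ 2`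
above the critical point. The proof contains the lace expansion and the estimates at the critical point
which it needs.
-/

set_option autoImplicit false

namespace Pool.Agent.Results.MP_0d9ad5_pr.SharpLargeD

open H5DF

/-- There is `d₀` such that for every `d ≥ d₀` the diffusivity `D(p)` of the simple random walk on the
infinite cluster of bond percolation on `ℤ ^ d` satisfies `c (p - p_c) ^ 2 ≤ D(p) ≤ C (p - p_c) ^ 2` for all
`p` in some interval `(p_c, p_c + δ)`. Here `p_c` is the critical point: `θ = 0` below and `θ > 0` above. -/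
theorem result : ∃ d₀ : ℕ, ∀ d : ℕ, d₀ ≤ d → ∃ pc : ℝ, 0 < pc ∧ pc < 1 ∧
    (∀ p : ℝ, 0 ≤ p → p < pc → theta d p = 0) ∧ (∀ p : ℝ, pc < p → p < 1 → 0 < theta d p) ∧
    ∃ c C δ : ℝ, 0 < c ∧ 0 < C ∧ 0 < δ ∧ ∀ ε : ℝ, 0 < ε → ε < δ → ∀ D : NNReal,
      HasDiffusivity d (pc + ε) D → c * ε ^ 2 ≤ D ∧ (D : ℝ) ≤ C * ε ^ 2 :=
  CG.two_sided

end Pool.Agent.Results.MP_0d9ad5_pr.SharpLargeD
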