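import Pool.Agent.H70.CF.Law2

/-!
# The diffusivity of the walk on the infinite percolation cluster, from the critical two-point function

Definitions (file `Pool/Agent/H5/DF/Defs.lean`): `perc d p` is Bernoulli bond percolation on `ℤ ^ d`,
`theta d p` the percolation probability, `tau d p x` the probability that `0` and `x` are connected,
`HasDiffusivity d p D` says that for almost every configuration with `0` in an infinite cluster
`X_n / √n` converges in law to the centred Gaussian vector with covariance matrix `D I_d`.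

For every `d ≥ 9` three estimates at the critical point imply that `D(p)` is of the order `(p - p_c) ^ 2`.
The three estimates are published for `d ≥ 11`.
-/

set_option autoImplicit false

namespace Pool.Agent.Results.MP_0d9ad5_pr.SharpLawNine

open H5DF MeasureTheory

/-- Let `d ≥ 9` and suppose `a / ‖x‖ ^ (d - 2) ≤ τ_{p₀}(x) ≤ A / ‖x‖ ^ (d - 2)`,
`τ_{p₀ - e}(x) ≤ A / ‖x‖ ^ (d - 2) exp (- c₀ √e ‖x‖)` and `θ(p₀ + e) ≤ A e` for all `x ≠ 0` and small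
`e > 0`. Then `p₀` is the critical point and `c ε ^ 2 ≤ D(p₀ + ε) ≤ C ε ^ 2` for all small `ε > 0`. -/
theorem result (d : ℕ) (hd : 9 ≤ d) (p0 a A c0 δ0 : ℝ) (h0 : 0 < p0) (h1 : p0 < 1)
    (ha : 0 < a) (hA : 0 < A) (hc0 : 0 < c0) (hδ0 : 0 < δ0)
    (H1 : ∀ x : V d, x ≠ 0 → ENNReal.ofReal (a / ‖x‖ ^ (d - 2)) ≤ tau d p0 x ∧
      tau d p0 x ≤ ENNReal.ofReal (A / ‖x‖ ^ (d - 2)))
    (H2 : ∀ e : ℝ, 0 < e → e < δ0 → ∀ x : V d, x ≠ 0 → tau d (p0 - e) x ≤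
      ENNReal.ofReal (A / ‖x‖ ^ (d - 2) * Real.exp (-(c0 * Real.sqrt e * ‖x‖))))
    (H3 : ∀ e : ℝ, 0 < e → e < δ0 → theta d (p0 + e) ≤ A * e) :
    (∀ p : ℝ, 0 ≤ p → p < p0 → theta d p = 0) ∧
    ∃ c C δ : ℝ, 0 < c ∧ 0 < C ∧ 0 < δ ∧ ∀ ε : ℝ, 0 < ε → ε < δ → 0 < theta d (p0 + ε) ∧
      ∀ D : NNReal, HasDiffusivity d (p0 + ε) D → c * ε ^ 2 ≤ D ∧ (D : ℝ) ≤ C * ε ^ 2 :=
  CF.sharp_law d hd p0 a A c0 δ0 h0 h1 ha hA hc0 hδ0 H1 H2 H3

end Pool.Agent.Results.MP_0d9ad5_pr.SharpLawNine
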