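import Pool.Agent.H5.DG.BFinal

/-!
# A sharp upper bound for the diffusivity of the walk on the infinite percolation cluster

Definitions (file `Pool/Agent/H5/DF/Defs.lean`): `perc d p` is Bernoulli bond percolation on `ℤ ^ d`,
`theta d p` the percolation probability, `tau d p x` the probability that `0` and `x` are connected,
`HasDiffusivity d p D` says that for almost every configuration with `0` in an infinite cluster
`X_n / √n` converges in law to the centred Gaussian vector with covariance matrix `D I_d`.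

Part one is unconditional and holds in every dimension: with `M(p') = ∑_x (1 + ‖x‖ ^ 2) τ_{p'}(x)`,
`D(p) ≤ 96 d ^ 2 ((p - p') / p) ^ 2 ((p - p') / (1 - p')) θ(p) M(p')` for all `p' ≤ p` with `M(p') < ∞`.
Part two: if `θ(p_c + ε) = O(ε)` and `M(p_c - ε) = O(ε ^ (-2))`, then `D(p_c + ε) = O(ε ^ 2)`.
-/

set_option autoImplicit false

namespace Pool.Agent.Results.MP_0d9ad5_pr.SharpUpperBound

open H5DF

/-- The diffusivity `D(p)` of the walk on the infinite percolation cluster of `ℤ ^ d` is at most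
`96 d ^ 2 ((p - p') / p) ^ 2 ((p - p') / (1 - p')) θ(p) m` for all `p' ≤ p`, where `m` bounds the sum
`∑_x (1 + ‖x‖ ^ 2) τ_{p'}(x)`. In particular it is at most `C ε ^ 2` at `p_c + ε` if `θ(p_c + ε) ≤ A ε` and
the sum at `p_c - ε` is at most `A / ε ^ 2`. -/
theorem result (d : ℕ) (hd : 1 ≤ d) :
    (∀ (p' p m : ℝ) (D : NNReal), 0 ≤ p' → p' ≤ p → 0 < p → p ≤ 1 → p' < 1 → 0 < theta d p → 0 ≤ m →
      ∑' x : V d, ENNReal.ofReal (1 + ‖x‖ ^ 2) * tau d p' x ≤ ENNReal.ofReal m →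
      HasDiffusivity d p D →
      (D : ℝ) ≤ 96 * (d : ℝ) ^ 2 * ((p - p') / p) ^ 2 * ((p - p') / (1 - p')) * theta d p * m) ∧
    ∀ pc A δ₀ : ℝ, 0 < pc → pc < 1 → 0 < A → 0 < δ₀ →
      (∀ ε : ℝ, 0 < ε → ε < δ₀ → 0 < theta d (pc + ε) ∧ theta d (pc + ε) ≤ A * ε) →
      (∀ ε : ℝ, 0 < ε → ε < δ₀ →
        ∑' x : V d, ENNReal.ofReal (1 + ‖x‖ ^ 2) * tau d (pc - ε) x ≤ ENNReal.ofReal (A / ε ^ 2)) →
      ∃ C δ : ℝ, 0 < C ∧ 0 < δ ∧ ∀ ε : ℝ, 0 < ε → ε < δ → ∀ D : NNReal,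
        HasDiffusivity d (pc + ε) D → (D : ℝ) ≤ C * ε ^ 2 := by
  refine ⟨fun p' p m D hp'0 hp' hp0 hp1 hp'1 hθ hm hmom hD => ?_,
    fun pc A δ₀ hpc0 hpc1 hA hδ₀ hθ hM => sharp_mean_field d hd pc A δ₀ hpc0 hpc1 hA hδ₀ hθ hM⟩
  have h := sharp_ineq d hd p' p m D hp'0 hp' hp0 hp1 hp'1 hm hmom hD
  have h1 : (D : ℝ) = (D * theta d p) / theta d p := by field_simp
  rw [h1]
  calc (D * theta d p) / theta d p ≤ (96 * (d : ℝ) ^ 2 * ((p - p') / p) ^ 2 *
        ((p - p') / (1 - p')) * theta d p ^ 2 * m) / theta d p := by gcongr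
    _ = _ := by field_simp

end Pool.Agent.Results.MP_0d9ad5_pr.SharpUpperBound
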